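import Pool.Agent.CY.S6.Iface
import Pool.Agent.CY.S3.Loc
import Pool.Agent.CY.S5.Mean

/-!
Project CY, part S7: the scalar curvature of the boundary under a conformal change, in a chart.

PLAN.  `metOn_tang`: the components of `tang (g.G e)` are `(g.G e · a.succ b.succ) ∘ bd`, `bd` is smooth (`contDiff_bd`)
and maps `bdom e` to `dom e`; positive definiteness: `Metric.tang_posDef`.
`scal_bconf`: on `bdom e` (open, `isOpen_bdom`, `dom_of_open`) we have `tang (h.G e) z = (v z^(2/(n-2)))² • tang (g.G e) z`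
with `v z = u (pt e (bd z))`; `S6.scal_congr`, `S6.scal_yamabe` with `m = n`; `v` is smooth on `bdom e`
(`contDiffOn_loc` composed with `bd`).
`bscal_away`: if `u = c` (constant, positive) in a neighbourhood of `p`, then in the chart `ch p` the function `v` is
locally constant near `z = tl (co (ch p) p)`, so `lap univ _ v z = 0` (use the smaller domain where `v = c`:
`Dom.inter_open`/`dom_of_open`, `Dom.pd_congr`, `pd_const`) and
`bscalX h p * u^(2n/(n-2)) = c^(-(n+2)/(n-2) + 1 + 2n/(n-2)) R = c² R`.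
-/

set_option autoImplicit false
set_option linter.unusedSectionVars false

open scoped Manifold ContDiff ENNReal
open MeasureTheory Set Filter Topology

namespace Pool.Agent.CY.S7

variable {n : ℕ} {X : Type} [TopologicalSpace X] [ChartedSpace (EuclideanHalfSpace (n + 1)) X]
  [IsManifold (𝓡∂ (n + 1)) ∞ X]

theorem metOn_tang (g : Metric n X) {e : OpenPartialHomeomorph X (EuclideanHalfSpace (n + 1))}
    (he : e ∈ atlas (EuclideanHalfSpace (n + 1)) X) : MetOn (bdom e) (tang (g.G e)) 3 where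
  pos := fun _ hz => g.tang_posDef he hz
  smooth := fun a b => contDiffOn_bd (g.smooth e he a.succ b.succ)

theorem contDiffOn_bloc {u : X → ℝ} (hu : ContMDiff (𝓡∂ (n + 1)) 𝓘(ℝ) ∞ u)
    {e : OpenPartialHomeomorph X (EuclideanHalfSpace (n + 1))}
    (he : e ∈ atlas (EuclideanHalfSpace (n + 1)) X) :
    ContDiffOn ℝ ∞ (fun z => u (pt e (bd z))) (bdom e) :=
  contDiffOn_bd (contDiffOn_loc (k := ⊤) he hu)

private theorem dom_bdom (e : OpenPartialHomeomorph X (EuclideanHalfSpace (n + 1))) :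
    Dom (univ : Set (V n)) (bdom e) := dom_of_open (isOpen_bdom e)

theorem scal_bconf (hn : 3 ≤ n) {g h : Metric n X} {u : X → ℝ} (hu : u ∈ PosSmooth n X)
    (hh : IsConf (fun p => u p ^ (2 / ((n : ℝ) - 2))) g h)
    {e : OpenPartialHomeomorph X (EuclideanHalfSpace (n + 1))}
    (he : e ∈ atlas (EuclideanHalfSpace (n + 1)) X) {z : V n} (hz : z ∈ bdom e) :
    scal univ (tang (h.G e)) z = u (pt e (bd z)) ^ (-((n : ℝ) + 2) / ((n : ℝ) - 2)) *
      (-(4 * ((n : ℝ) - 1) / ((n : ℝ) - 2)) * lap univ (tang (g.G e)) (fun x => u (pt e (bd x))) z +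
        scal univ (tang (g.G e)) z * u (pt e (bd z))) := by
  have h1 : ∀ x ∈ bdom e, tang (h.G e) x =
      (fun x => (u (pt e (bd x)) ^ (2 / ((n : ℝ) - 2))) ^ 2 • tang (g.G e) x) x := by
    intro x hx
    have h2 := hh e he (bd x) hx
    ext a b
    simp only [tang, Matrix.of_apply, Matrix.smul_apply]
    rw [h2]
    rfl
  rw [S6.scal_congr (dom_bdom e) h1 hz]
  exact S6.scal_yamabe hn (dom_bdom e) ((metOn_tang g he).of_le (by norm_num))
    ((contDiffOn_bloc hu.1 he).of_le (WithTop.coe_le_coe.2 le_top :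
      ((2 : ℕ∞) : WithTop ℕ∞) ≤ ((⊤ : ℕ∞) : WithTop ℕ∞))) (fun x _ => hu.2 _) hz

theorem bscal_away (hn : 3 ≤ n) {g h : Metric n X} {u : X → ℝ} (hu : u ∈ PosSmooth n X)
    (hh : IsConf (fun p => u p ^ (2 / ((n : ℝ) - 2))) g h) {p : X}
    (hb : p ∈ (𝓡∂ (n + 1)).boundary X) {c : ℝ} (hc : 0 < c) (hp : ∀ᶠ q in 𝓝 p, u q = c) :
    bscalX h p * u p ^ (2 * (n : ℝ) / ((n : ℝ) - 2)) = bscalX g p * u p ^ 2 := by
  have he := ch_mem_atlas (n := n) p
  have h0 : co (ch (n := n) p) p 0 = 0 := (mem_boundary_iff he (mem_ch_source p)).1 hb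
  have h2 : bd (tl (co (ch (n := n) p) p)) = co (ch (n := n) p) p := bd_tl h0
  have hz : tl (co (ch (n := n) p) p) ∈ bdom (ch (n := n) p) := by
    show bd (tl (co (ch (n := n) p) p)) ∈ dom (ch (n := n) p)
    rw [h2]
    exact co_ch_mem p
  have h3 : pt (ch (n := n) p) (bd (tl (co (ch (n := n) p) p))) = p := by
    rw [h2]
    exact pt_co_ch p
  have h4 := scal_bconf hn hu hh he hz
  set z := tl (co (ch (n := n) p) p) with hzdef
  have hcont : ContinuousAt (fun x : V n => pt (ch (n := n) p) (bd x)) z :=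
    ((continuousOn_pt (ch (n := n) p)).comp continuous_bd.continuousOn
      (fun x hx => hx)).continuousAt ((isOpen_bdom _).mem_nhds hz)
  have hev : ∀ᶠ x in 𝓝 z, u (pt (ch (n := n) p) (bd x)) = c := by
    have h5 : ∀ᶠ q in 𝓝 (pt (ch (n := n) p) (bd z)), u q = c := by
      rw [h3]
      exact hp
    exact hcont.eventually h5
  obtain ⟨W, hW, hWo, hzW⟩ := mem_nhds_iff.1 hev
  have hD : Dom (univ : Set (V n)) W := dom_of_open hWo
  have hpd : ∀ j, ∀ x ∈ W, pd univ j (fun x => u (pt (ch (n := n) p) (bd x))) x = 0 := by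
    intro j x hx
    rw [hD.pd_congr j (g := fun _ => c) (fun y hy => hW hy) hx, pd_const]
  have hlap : lap univ (tang (g.G (ch p))) (fun x => u (pt (ch (n := n) p) (bd x))) z = 0 := by
    unfold lap hess
    refine Finset.sum_eq_zero fun i _ => Finset.sum_eq_zero fun j _ => ?_
    rw [hD.pd_congr i (g := fun _ => 0) (fun y hy => hpd j y hy) hzW, pd_const]
    have h5 : ∑ k, Gam univ (tang (g.G (ch p))) k i j z *
        pd univ k (fun x => u (pt (ch (n := n) p) (bd x))) z = 0 :=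
      Finset.sum_eq_zero fun k _ => by rw [hpd k z hzW, mul_zero]
    rw [h5, sub_zero, mul_zero]
  rw [hlap, mul_zero, zero_add, h3] at h4
  have h6 : bscalX h p = scal univ (tang (h.G (ch p))) z := rfl
  have h7 : bscalX g p = scal univ (tang (g.G (ch p))) z := rfl
  rw [h6, h7, h4]
  have hup := hu.2 p
  have hn2 : (0 : ℝ) < (n : ℝ) - 2 := by
    have : (3 : ℝ) ≤ n := by exact_mod_cast hn
    linarith
  have h8 : u p ^ (-((n : ℝ) + 2) / ((n : ℝ) - 2)) * u p *
      u p ^ (2 * (n : ℝ) / ((n : ℝ) - 2)) = u p ^ 2 := by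
    rw [← Real.rpow_add_one hup.ne', ← Real.rpow_add hup, ← Real.rpow_natCast]
    congr 1
    push_cast
    field_simp
    ring
  rw [← h8]
  ring

theorem posSmooth_rpow {u : X → ℝ} (hu : u ∈ PosSmooth n X) (r : ℝ) :
    (fun p => u p ^ r) ∈ PosSmooth n X := by
  refine ⟨fun p => ?_, fun p => Real.rpow_pos_of_pos (hu.2 p) r⟩
  have h1 : ContDiffAt ℝ ∞ (fun x : ℝ => x ^ r) (u p) :=
    Real.contDiffAt_rpow_const_of_ne (hu.2 p).ne'
  exact h1.contMDiffAt.comp p (hu.1 p)

/-- The scalar curvature of the boundary is bounded on the boundary and a.e. strongly measurable. -/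
theorem bscal_bdd [CompactSpace X] [T2Space X] (g : Metric n X) :
    ContinuousOn (bscalX g) ((𝓡∂ (n + 1)).boundary X) ∧
    ∃ C : ℝ, ∀ p ∈ (𝓡∂ (n + 1)).boundary X, |bscalX g p| ≤ C := by
  have h1 : ContinuousOn (bscalX g) ((𝓡∂ (n + 1)).boundary X) :=
    continuousOn_of_bchart (fun e => scal univ (tang (g.G e)))
      (fun _ he _ hp hb => S6.bscalX_eq g he hp hb)
      (fun e he => S6.continuousOn_scal (dom_bdom e) ((metOn_tang g he).of_le (by norm_num)))
  refine ⟨h1, ?_⟩
  have hK : IsCompact ((𝓡∂ (n + 1)).boundary X) := isClosed_boundary.isCompact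
  obtain ⟨C, hC⟩ := hK.exists_bound_of_continuousOn h1
  exact ⟨C, fun p hp => by simpa [Real.norm_eq_abs] using hC p hp⟩

end Pool.Agent.CY.S7
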