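import Pool.Agent.CY.S3.Base

/-!
Project CY, part S7: extension of a function on the boundary chart to a smooth function on `X`.

PLAN.  `dom e = O ∩ Hs n`, `O` open (`dom_open`).  `K = bd '' tsupport φ` is compact and contained in `O`
(`tsupport φ ⊆ bdom e`).  `exists_compact_between` gives a compact `K'` with `K ⊆ interior K' ⊆ K' ⊆ O`, and a smooth
`χ : V (n+1) → ℝ`, `0 ≤ χ ≤ 1`, `χ = 1` on `K`, `χ = 0` outside `interior K'`
(`exists_contMDiffMap_zero_one_of_isClosed` for the model `𝓘(ℝ, V (n+1))`, or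
`exists_smooth_zero_one_of_isClosed`; `contMDiff_iff_contDiff`).
`Φ p = χ (co e p) * φ (tl (co e p))` for `p ∈ e.source` and `0` otherwise.  Its support is contained in
`T = pt e '' (K' ∩ Hs n)`, a compact set (continuity of `pt e` on `dom e`), closed as `X` is Hausdorff, `T ⊆ e.source`.
Smoothness: `contMDiff_of_loc`: in a chart `e'` near `y ∈ dom e'`: if `pt e' y ∈ e.source` then `y ∈ dom2 e' e` and
near `y` the function is `(χ * φ ∘ tl) ∘ tr e' e` (`contDiffOn_tr_vec`, `contDiff_tl`); otherwise `pt e' y ∉ T` and the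
function vanishes near `y` (in `dom e'`).  On the boundary: `co e (pt e (bd z)) = bd z`, `tl (bd z) = z`, and
`χ (bd z) * φ z = φ z` (either `z ∈ tsupport φ` or `φ z = 0`).
-/

set_option autoImplicit false
set_option linter.unusedSectionVars false

open scoped Manifold ContDiff ENNReal
open MeasureTheory Set Filter Topology

namespace Pool.Agent.CY.S7

variable {n : ℕ} {X : Type} [TopologicalSpace X] [ChartedSpace (EuclideanHalfSpace (n + 1)) X]
  [IsManifold (𝓡∂ (n + 1)) ∞ X] [CompactSpace X] [T2Space X]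

theorem exists_extension {e : OpenPartialHomeomorph X (EuclideanHalfSpace (n + 1))}
    (he : e ∈ atlas (EuclideanHalfSpace (n + 1)) X) {φ : V n → ℝ} (hφ : ContDiff ℝ ∞ φ)
    (hc : HasCompactSupport φ) (hs : tsupport φ ⊆ bdom e) (h0 : ∀ z, 0 ≤ φ z) :
    ∃ Φ : X → ℝ, ContMDiff (𝓡∂ (n + 1)) 𝓘(ℝ) ∞ Φ ∧ (∀ p, 0 ≤ Φ p) ∧
      (∀ z ∈ bdom e, Φ (pt e (bd z)) = φ z) ∧ tsupport Φ ⊆ e.source := by
  classical
  obtain ⟨O, hO, hdO⟩ := dom_open e
  have hKc : IsCompact (bd '' tsupport φ) := IsCompact.image hc continuous_bd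
  have hKO : bd '' tsupport φ ⊆ O := by
    rintro _ ⟨z, hz, rfl⟩
    have h1 : bd z ∈ dom e := hs hz
    rw [hdO] at h1
    exact h1.1
  obtain ⟨K', hK'c, hKK', hK'O⟩ := exists_compact_between hKc hO hKO
  obtain ⟨χ, hχ0, hχ1, hχ⟩ := exists_contMDiffMap_zero_one_of_isClosed (n := (⊤ : ℕ∞))
    𝓘(ℝ, V (n + 1)) (s := (interior K')ᶜ) (t := bd '' tsupport φ) isOpen_interior.isClosed_compl
    hKc.isClosed (disjoint_compl_left_iff_subset.2 hKK')
  have hχc : ContDiff ℝ ∞ (fun y : V (n + 1) => χ y) := contMDiff_iff_contDiff.1 χ.contMDiff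
  have hsub : K' ∩ Hs n ⊆ dom e := by
    rw [hdO]
    exact inter_subset_inter_left _ hK'O
  have hTc : IsCompact (pt e '' (K' ∩ Hs n)) :=
    (hK'c.inter_right isClosed_Hs).image_of_continuousOn ((continuousOn_pt e).mono hsub)
  have hTs : pt e '' (K' ∩ Hs n) ⊆ e.source := by
    rintro _ ⟨y, hy, rfl⟩
    exact pt_mem_source e (hsub hy)
  let Φ : X → ℝ := fun p => if p ∈ e.source then χ (co e p) * φ (tl (co e p)) else 0
  have hΦ1 : ∀ p ∈ e.source, Φ p = χ (co e p) * φ (tl (co e p)) := fun p hp => if_pos hp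
  have hΦT : ∀ p, p ∉ pt e '' (K' ∩ Hs n) → Φ p = 0 := by
    intro p hp
    by_cases h1 : p ∈ e.source
    · rw [hΦ1 p h1]
      have h2 : χ (co e p) = 0 := by
        apply hχ0
        intro h3
        exact hp ⟨co e p, ⟨interior_subset h3, co_mem_Hs e p⟩, pt_co e h1⟩
      rw [h2, zero_mul]
    · exact if_neg h1
  refine ⟨Φ, ?_, ?_, ?_, ?_⟩
  · refine contMDiff_of_loc (k := (⊤ : ℕ∞)) fun e' he' y hy => ?_
    by_cases h1 : pt e' y ∈ e.source
    · have h2 : y ∈ dom2 e' e := ⟨hy, h1⟩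
      have h3 : dom2 e' e ∈ 𝓝[dom e'] y :=
        nhdsWithin_mono _ (dom_subset e') ((dom_chart2 e' e).nhds y h2)
      have h4 : ContDiffOn ℝ ∞ (fun z => χ (tr e' e z) * φ (tl (tr e' e z))) (dom2 e' e) :=
        (hχc.comp_contDiffOn (contDiffOn_tr_vec he' he)).mul
          ((hφ.comp contDiff_tl).comp_contDiffOn (contDiffOn_tr_vec he' he))
      have h5 : ContDiffWithinAt ℝ ∞ (fun z => Φ (pt e' z)) (dom2 e' e) y := by
        refine (h4 y h2).congr (fun z hz => ?_) ?_
        · exact hΦ1 _ hz.2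
        · exact hΦ1 _ h1
      exact h5.mono_of_mem_nhdsWithin h3
    · have h2 : pt e' y ∉ pt e '' (K' ∩ Hs n) := fun h => h1 (hTs h)
      have h3 := (continuousOn_pt e' y hy).preimage_mem_nhdsWithin
        (hTc.isClosed.isOpen_compl.mem_nhds h2)
      refine (contDiffWithinAt_const (c := (0 : ℝ))).congr_of_eventuallyEq ?_ (hΦT _ h2)
      filter_upwards [h3] with z hz
      exact hΦT _ hz
  · intro p
    by_cases h1 : p ∈ e.source
    · rw [hΦ1 p h1]
      exact mul_nonneg (hχ _).1 (h0 _)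
    · exact (if_neg h1).ge
  · intro z hz
    rw [hΦ1 _ (pt_mem_source e hz), co_pt e hz, tl_bd]
    by_cases h1 : z ∈ tsupport φ
    · rw [hχ1 ⟨z, h1, rfl⟩]
      simp
    · rw [image_eq_zero_of_notMem_tsupport h1, mul_zero]
  · refine (closure_minimal ?_ hTc.isClosed).trans hTs
    intro p hp
    by_contra h1
    exact hp (hΦT p h1)

end Pool.Agent.CY.S7
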