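import Pool.Agent.CY.S6.Bubble
import Pool.Agent.CY.Geo

/-!
Project CY, part S7: concentrating test functions (Euclidean analysis only).

PLAN.  `exists_sqrt`: `Matrix.posSemidef_iff_eq_conjTranspose_mul_self` gives `B` with `k z₀ = Bᵀ B`, `det B ≠ 0`.
Let `ψ` be the function of `S6.sobolev_almost n hn (δ/2)`; `φ_ε z = ψ (ε⁻¹ • B (z - z₀))` (B acts by
`Matrix.toEuclideanLin`/`toLin'` as a continuous linear equivalence `L : V n ≃L[ℝ] V n`).
Change of variables `z = z₀ + ε L⁻¹ x` (`MeasureTheory.Measure.addHaar_image_linearMap`, `integral_comp_smul`,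
translation invariance; `scale_integral` below): `∫ F (ε⁻¹ • L (z - z₀)) z dz = ε^n |det L|⁻¹ ∫ F x (z₀ + ε L⁻¹ x) dx`.
`∂_i φ_ε (z) = ε⁻¹ (Bᵀ ∇ψ)_i (x)`, so `ε² gip univ k φ_ε φ_ε (z) = ∑_ij (k z)⁻¹_ij (Bᵀ∇ψ)_i (Bᵀ∇ψ)_j`, which for
`z = z₀` is `‖∇ψ(x)‖²`, as `(k z₀)⁻¹ = B⁻¹ B⁻ᵀ`.  By dominated convergence (`ψ` has compact support, `k`, `k⁻¹`,
`det k`, `R` are continuous on `W`, so bounded on a compact ball around `z₀`), as `ε → 0`:
`ε^{2-n} ∫_W (c' gip + R φ_ε²) √det k → c' ∫ ‖∇ψ‖²`, `ε^{-n} ∫_W φ_ε^p √det k → ∫ ψ^p`.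
So for small `ε` the inequality holds with `δ` (scale factors cancel: `(ε^n)^((n-2)/n) = ε^(n-2)`), and the support
of `φ_ε` is in `W`.
-/

set_option autoImplicit false

open MeasureTheory Real Set Filter Topology
open scoped ENNReal ContDiff

namespace Pool.Agent.CY.S7

theorem scale_integral {n : ℕ} (L : V n ≃L[ℝ] V n) (z₀ : V n) (ε : ℝ) (hε : 0 < ε)
    (F : V n → V n → ℝ) :
    ∫ z, F (ε⁻¹ • L (z - z₀)) z =
      ε ^ n * |(LinearMap.det (L : V n →ₗ[ℝ] V n))|⁻¹ * ∫ x, F x (z₀ + ε • L.symm x) := by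
  set H : V n → ℝ := fun x => F x (z₀ + ε • L.symm x) with hH
  have h1 : ∀ z, F (ε⁻¹ • L (z - z₀)) z = H (ε⁻¹ • L (z - z₀)) := by
    intro z
    simp only [hH]
    congr 1
    rw [map_smul, L.symm_apply_apply, smul_smul, mul_inv_cancel₀ hε.ne', one_smul]
    abel
  simp_rw [h1]
  rw [integral_sub_right_eq_self (fun z => H (ε⁻¹ • L z)) z₀]
  have hdet : LinearMap.det (L : V n →ₗ[ℝ] V n) ≠ 0 := by
    have := L.toLinearEquiv.isUnit_det'
    exact this.ne_zero
  have hmap : Measure.map (L : V n → V n) volume =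
      ENNReal.ofReal |(LinearMap.det (L : V n →ₗ[ℝ] V n))⁻¹| • (volume : Measure (V n)) :=
    Measure.map_linearMap_addHaar_eq_smul_addHaar (μ := (volume : Measure (V n))) hdet
  have h2 : ∫ z, H (ε⁻¹ • L z) = ∫ y, H (ε⁻¹ • y) ∂(Measure.map (L : V n → V n) volume) := by
    have := (L.toHomeomorph.measurableEmbedding).integral_map (μ := (volume : Measure (V n))) (fun y => H (ε⁻¹ • y))
    exact this.symm
  rw [h2, hmap, integral_smul_measure, Measure.integral_comp_smul]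
  rw [finrank_euclideanSpace, Fintype.card_fin, inv_pow, inv_inv, abs_of_pos (pow_pos hε n),
    ENNReal.toReal_ofReal (abs_nonneg _), abs_inv, smul_eq_mul, smul_eq_mul]
  ring

open scoped MatrixOrder in
theorem exists_lin {n : ℕ} (K : Matrix (Fin n) (Fin n) ℝ) (hK : K.PosDef) :
    ∃ (L : V n ≃L[ℝ] V n), √K.det = |(LinearMap.det (L : V n →ₗ[ℝ] V n))| ∧
      ∀ T : V n →L[ℝ] ℝ, ∑ i, ∑ j, K⁻¹ i j * (T (L (EuclideanSpace.single i 1)) *
        T (L (EuclideanSpace.single j 1))) = ‖T‖ ^ 2 := by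
  obtain ⟨B, hB⟩ := CStarAlgebra.nonneg_iff_eq_star_mul_self.mp hK.posSemidef.nonneg
  have hB' : K = B.transpose * B := hB
  have hdK : K.det = B.det ^ 2 := by
    rw [hB', Matrix.det_mul, Matrix.det_transpose, sq]
  have hKd : K.det ≠ 0 := hK.det_pos.ne'
  have hBd : B.det ≠ 0 := by
    intro h
    rw [hdK, h] at hKd
    simp at hKd
  set b := (EuclideanSpace.basisFun (Fin n) ℝ).toBasis with hb
  set L0 : V n →ₗ[ℝ] V n := Matrix.toLin b b B with hL0
  have hdet : LinearMap.det L0 = B.det := LinearMap.det_toLin b B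
  have hdet' : (L0.toContinuousLinearMap).det ≠ 0 := by
    rw [LinearMap.det_toContinuousLinearMap, hdet]
    exact hBd
  refine ⟨ContinuousLinearMap.toContinuousLinearEquivOfDetNeZero _ hdet', ?_, ?_⟩
  · rw [hdK, Real.sqrt_sq_eq_abs, ← hdet]
    congr 2
  · intro T
    have hbi : ∀ i, b i = EuclideanSpace.single i (1 : ℝ) := by
      intro i
      simp [hb]
    have hL : ∀ i, T ((ContinuousLinearMap.toContinuousLinearEquivOfDetNeZero _ hdet') (EuclideanSpace.single i 1))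
        = ∑ l, B l i * T (EuclideanSpace.single l 1) := by
      intro i
      rw [ContinuousLinearMap.toContinuousLinearEquivOfDetNeZero_apply]
      show T (L0 _) = _
      rw [← hbi, hL0, Matrix.toLin_self, map_sum]
      simp_rw [map_smul, hbi, smul_eq_mul]
    simp_rw [hL]
    set t : Fin n → ℝ := fun l => T (EuclideanSpace.single l 1) with ht
    have hs : ∀ i, ∑ l, B l i * T (EuclideanSpace.single l 1) = (B.transpose.mulVec t) i := by
      intro i
      rfl
    simp_rw [hs]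
    have hT : ‖T‖ ^ 2 = ∑ i, t i * t i := by
      rw [S6.norm_sq_clm]
      simp_rw [sq]
      rfl
    rw [hT]
    have h1 : ∑ i, ∑ j, K⁻¹ i j * ((B.transpose.mulVec t) i * (B.transpose.mulVec t) j)
        = (B.transpose.mulVec t) ⬝ᵥ (K⁻¹.mulVec (B.transpose.mulVec t)) := by
      simp only [dotProduct, Matrix.mulVec]
      refine Finset.sum_congr rfl fun i _ => ?_
      rw [Finset.mul_sum]
      refine Finset.sum_congr rfl fun j _ => ?_
      ring
    rw [h1]
    have hBu : IsUnit B.det := hBd.isUnit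
    have hBtu : IsUnit B.transpose.det := by rwa [Matrix.det_transpose]
    have h2 : K⁻¹ = B⁻¹ * (B.transpose)⁻¹ := by
      rw [hB', Matrix.mul_inv_rev]
    rw [h2, Matrix.mulVec_mulVec, Matrix.mul_assoc, Matrix.nonsing_inv_mul _ hBtu, Matrix.mul_one]
    rw [Matrix.mulVec_transpose, ← Matrix.dotProduct_mulVec, Matrix.mulVec_mulVec, Matrix.mul_nonsing_inv _ hBu, Matrix.one_mulVec]
    rfl

private theorem Scale_lim {n : ℕ} (L : V n ≃L[ℝ] V n) (z₀ : V n) (W : Set (V n)) (hW : IsOpen W)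
    (S : Set (V n)) (hS : IsCompact S) (ε0 : ℝ) (hε0 : 0 < ε0)
    (hSW : ∀ ε ∈ Icc (0 : ℝ) ε0, ∀ x ∈ S, z₀ + ε • L.symm x ∈ W)
    (G : ℝ → V n → V n → ℝ) (hG : ContinuousOn (fun q : ℝ × V n × V n => G q.1 q.2.1 q.2.2) {q | q.2.2 ∈ W})
    (hG0 : ∀ ε x z, x ∉ S → G ε x z = 0) :
    Tendsto (fun ε : ℝ => ∫ x, G ε x (z₀ + ε • L.symm x)) (𝓝[>] 0) (𝓝 (∫ x, G 0 x z₀)) := by
  have hWo : IsOpen {q : ℝ × V n × V n | q.2.2 ∈ W} := hW.preimage (continuous_snd.comp continuous_snd)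
  have hc : ContinuousOn (Function.uncurry fun (ε : ℝ) (x : V n) => G ε x (z₀ + ε • L.symm x))
      (Icc (0 : ℝ) ε0 ×ˢ univ) := by
    rintro ⟨ε, x⟩ ⟨hε, -⟩
    by_cases hx : x ∈ S
    · apply ContinuousAt.continuousWithinAt
      have h1 : ContinuousAt (fun q : ℝ × V n × V n => G q.1 q.2.1 q.2.2) (ε, x, z₀ + ε • L.symm x) :=
        hG.continuousAt (hWo.mem_nhds (hSW ε hε x hx))
      have h2 : ContinuousAt (fun q : ℝ × V n => (q.1, q.2, z₀ + q.1 • L.symm q.2)) (ε, x) := by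
        apply Continuous.continuousAt
        fun_prop
      exact ContinuousAt.comp (f := fun q : ℝ × V n => (q.1, q.2, z₀ + q.1 • L.symm q.2)) (x := (ε, x)) h1 h2
    · have h1 : ∀ᶠ q : ℝ × V n in 𝓝 (ε, x), q.2 ∉ S :=
        (continuous_snd.continuousAt (x := (ε, x))).eventually (hS.isClosed.isOpen_compl.mem_nhds hx)
      apply ContinuousAt.continuousWithinAt
      have h2 : (Function.uncurry fun (ε : ℝ) (x : V n) => G ε x (z₀ + ε • L.symm x)) =ᶠ[𝓝 (ε, x)] fun _ => 0 := by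
        filter_upwards [h1] with q hq
        exact hG0 _ _ _ hq
      exact continuousAt_const.congr h2.symm
  have h3 := continuousOn_integral_of_compact_support (μ := (volume : Measure (V n))) hS hc (fun p x _ hx => hG0 _ _ _ hx)
  have h4 := h3 0 (left_mem_Icc.2 hε0.le)
  have h5 : Tendsto (fun ε : ℝ => ∫ x, G ε x (z₀ + ε • L.symm x)) (𝓝[>] 0) (𝓝 (∫ x, G 0 x (z₀ + (0 : ℝ) • L.symm x))) := by
    refine Tendsto.mono_left h4 ?_
    rw [nhdsWithin_le_iff]
    filter_upwards [Ioc_mem_nhdsGT hε0] with ε hε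
    exact ⟨hε.1.le, hε.2⟩
  simpa using h5

theorem scale_test (n : ℕ) (hn : 3 ≤ n) (W : Set (V n)) (hW : IsOpen W) (z₀ : V n) (hz : z₀ ∈ W)
    (k : MF n) (hk : ∀ i j, ContinuousOn (fun z => k z i j) W) (hpd : ∀ z ∈ W, (k z).PosDef)
    (R : V n → ℝ) (hR : ContinuousOn R W) (δ : ℝ) (hδ : 0 < δ) :
    ∃ φ : V n → ℝ, ContDiff ℝ ∞ φ ∧ HasCompactSupport φ ∧ tsupport φ ⊆ W ∧ (∀ z, 0 ≤ φ z) ∧
      0 < ∫ z in W, φ z ^ (2 * (n : ℝ) / ((n : ℝ) - 2)) * √(k z).det ∧
      ∫ z in W, (4 * ((n : ℝ) - 1) / ((n : ℝ) - 2) * gip univ k φ φ z + R z * φ z ^ 2) * √(k z).det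
        ≤ (Yn n + δ) *
          (∫ z in W, φ z ^ (2 * (n : ℝ) / ((n : ℝ) - 2)) * √(k z).det) ^ (((n : ℝ) - 2) / (n : ℝ)) := by
  have hn0 : (3 : ℝ) ≤ n := by exact_mod_cast hn
  have hn2 : (0 : ℝ) < (n : ℝ) - 2 := by linarith
  obtain ⟨ψ, ψd, ψc, ψ0, ψP, ψE⟩ := S6.bubble_approx n hn (half_pos hδ)
  obtain ⟨L, hLd, hLT⟩ := exists_lin (k z₀) (hpd z₀ hz)
  set p : ℝ := 2 * (n : ℝ) / ((n : ℝ) - 2) with hp
  have hp0 : 0 < p := by positivity
  set θ : ℝ := ((n : ℝ) - 2) / (n : ℝ) with hθ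
  have hθ0 : 0 < θ := by positivity
  set c' : ℝ := 4 * ((n : ℝ) - 1) / ((n : ℝ) - 2) with hc'
  set S := tsupport ψ with hS
  have hSc : IsCompact S := ψc
  set D : ℝ := |(LinearMap.det (L : V n →ₗ[ℝ] V n))| with hD
  have hDpos : 0 < D := by
    rw [← hLd]
    exact Real.sqrt_pos.2 (hpd z₀ hz).det_pos
  -- continuity of the matrices
  have hkc : ContinuousOn k W := by
    apply continuousOn_pi.2
    intro i
    apply continuousOn_pi.2
    intro j
    exact hk i j
  have hdetc : ContinuousOn (fun z => (k z).det) W := by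
    have : Continuous (fun M : Matrix (Fin n) (Fin n) ℝ => M.det) := Continuous.matrix_det continuous_id
    exact this.comp_continuousOn hkc
  have hsqc : ContinuousOn (fun z => √(k z).det) W := Real.continuous_sqrt.comp_continuousOn hdetc
  have hinvc : ∀ i j, ContinuousOn (fun z => (k z)⁻¹ i j) W := by
    intro i j
    have h1 : ContinuousOn (fun z => (k z).adjugate i j) W := by
      have : Continuous (fun M : Matrix (Fin n) (Fin n) ℝ => M.adjugate i j) :=
        (Continuous.matrix_adjugate continuous_id).matrix_elem i j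
      exact this.comp_continuousOn hkc
    have h2 : ContinuousOn (fun z => ((k z).det)⁻¹) W :=
      hdetc.inv₀ fun z hz => (hpd z hz).det_pos.ne'
    have h3 : ∀ z, (k z)⁻¹ i j = ((k z).det)⁻¹ * (k z).adjugate i j := by
      intro z
      rw [Matrix.inv_def, Ring.inverse_eq_inv', Matrix.smul_apply, smul_eq_mul]
    simp_rw [h3]
    exact h2.mul h1
  -- the radius
  obtain ⟨r, hr, hrW⟩ := Metric.nhds_basis_closedBall.mem_iff.1 (hW.mem_nhds hz)
  obtain ⟨M, hM⟩ := hSc.exists_bound_of_continuousOn (L.symm.continuous.continuousOn (s := S))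
  set ε0 : ℝ := r / (|M| + 1) with hε0
  have hε0p : 0 < ε0 := by positivity
  have hball : ∀ ε ∈ Icc (0 : ℝ) ε0, ∀ x ∈ S, z₀ + ε • L.symm x ∈ Metric.closedBall z₀ r := by
    intro ε hε x hx
    rw [mem_closedBall_iff_norm, add_sub_cancel_left, norm_smul, Real.norm_eq_abs, abs_of_nonneg hε.1]
    have h1 : ‖L.symm x‖ ≤ |M| + 1 := (hM x hx).trans (by linarith [le_abs_self M])
    calc ε * ‖L.symm x‖ ≤ ε0 * (|M| + 1) := mul_le_mul hε.2 h1 (norm_nonneg _) hε0p.le
      _ = r := by rw [hε0]; field_simp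
  have hSW : ∀ ε ∈ Icc (0 : ℝ) ε0, ∀ x ∈ S, z₀ + ε • L.symm x ∈ W := fun ε hε x hx => hrW (hball ε hε x hx)
  -- the derivative of ψ
  have hdc : Continuous (fderiv ℝ ψ) := ψd.continuous_fderiv (by simp)
  have hψc : Continuous ψ := ψd.continuous
  set Q : V n → V n → ℝ := fun x z => ∑ i, ∑ j, (k z)⁻¹ i j *
    (fderiv ℝ ψ x (L (EuclideanSpace.single i 1)) * fderiv ℝ ψ x (L (EuclideanSpace.single j 1))) with hQ
  -- limits
  have hB := Scale_lim L z₀ W hW S hSc ε0 hε0p hSW (fun _ x z => ψ x ^ p * √(k z).det) (by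
      apply ContinuousOn.mul
      · apply Continuous.continuousOn
        exact (hψc.comp (continuous_fst.comp continuous_snd)).rpow_const fun _ => Or.inr hp0.le
      · exact hsqc.comp (continuous_snd.comp continuous_snd).continuousOn fun q hq => hq) (by
      intro ε x z hx
      rw [image_eq_zero_of_notMem_tsupport hx, Real.zero_rpow hp0.ne', zero_mul])
  have hA := Scale_lim L z₀ W hW S hSc ε0 hε0p hSW
    (fun ε x z => (c' * Q x z + ε ^ 2 * (R z * ψ x ^ 2)) * √(k z).det) (by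
      apply ContinuousOn.mul
      · apply ContinuousOn.add
        · apply ContinuousOn.mul continuousOn_const
          apply continuousOn_finsetSum
          intro i _
          apply continuousOn_finsetSum
          intro j _
          apply ContinuousOn.mul
          · exact (hinvc i j).comp (continuous_snd.comp continuous_snd).continuousOn fun q hq => hq
          · apply Continuous.continuousOn
            have h1 : ∀ i, Continuous fun q : ℝ × V n × V n => fderiv ℝ ψ q.2.1 (L (EuclideanSpace.single i 1)) :=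
              fun i => (hdc.comp (continuous_fst.comp continuous_snd)).clm_apply continuous_const
            exact (h1 i).mul (h1 j)
        · apply ContinuousOn.mul
          · exact (continuous_fst.pow 2).continuousOn
          · apply ContinuousOn.mul
            · exact hR.comp (continuous_snd.comp continuous_snd).continuousOn fun q hq => hq
            · exact ((hψc.comp (continuous_fst.comp continuous_snd)).pow 2).continuousOn
      · exact hsqc.comp (continuous_snd.comp continuous_snd).continuousOn fun q hq => hq) (by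
      intro ε x z hx
      have h1 : fderiv ℝ ψ x = 0 := by
        by_contra hne
        exact hx (support_fderiv_subset ℝ (by simpa [Function.mem_support] using hne))
      simp only [hQ, h1, image_eq_zero_of_notMem_tsupport hx]
      simp)
  -- values of the limits
  have hB1 : ∫ x, ψ x ^ p * √(k z₀).det = D * ∫ x, ψ x ^ p := by
    rw [integral_mul_const, hLd, mul_comm]
  have hA1 : ∫ x, (c' * Q x z₀ + (0 : ℝ) ^ 2 * (R z₀ * ψ x ^ 2)) * √(k z₀).det
      = D * (c' * ∫ x, ∑ i, (fderiv ℝ ψ x (EuclideanSpace.single i 1)) ^ 2) := by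
    have h1 : ∀ x, (c' * Q x z₀ + (0 : ℝ) ^ 2 * (R z₀ * ψ x ^ 2)) * √(k z₀).det
        = (D * c') * ∑ i, (fderiv ℝ ψ x (EuclideanSpace.single i 1)) ^ 2 := by
      intro x
      have h2 : Q x z₀ = ∑ i, (fderiv ℝ ψ x (EuclideanSpace.single i 1)) ^ 2 := by
        rw [← S6.norm_sq_clm]
        exact hLT (fderiv ℝ ψ x)
      rw [h2, hLd]
      ring
    simp_rw [h1]
    rw [integral_const_mul]
    ring
  rw [hB1] at hB
  rw [hA1] at hA
  -- the final strict inequality
  have hlim : Tendsto (fun ε : ℝ => D⁻¹ * (∫ x, (c' * Q x (z₀ + ε • L.symm x) + ε ^ 2 * (R (z₀ + ε • L.symm x) * ψ x ^ 2)) *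
        √(k (z₀ + ε • L.symm x)).det)
      - (Yn n + δ) * (D⁻¹ * ∫ x, ψ x ^ p * √(k (z₀ + ε • L.symm x)).det) ^ θ) (𝓝[>] 0)
      (𝓝 (D⁻¹ * (D * (c' * ∫ x, ∑ i, (fderiv ℝ ψ x (EuclideanSpace.single i 1)) ^ 2))
        - (Yn n + δ) * (D⁻¹ * (D * ∫ x, ψ x ^ p)) ^ θ)) := by
    apply Tendsto.sub
    · exact hA.const_mul _
    · apply Tendsto.const_mul
      apply Tendsto.rpow_const
      · exact hB.const_mul _
      · left
        rw [inv_mul_cancel_left₀ hDpos.ne']
        exact ψP.ne'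
  rw [inv_mul_cancel_left₀ hDpos.ne', inv_mul_cancel_left₀ hDpos.ne'] at hlim
  have hPθ : 0 < (∫ x, ψ x ^ p) ^ θ := Real.rpow_pos_of_pos ψP _
  have hneg : c' * (∫ x, ∑ i, (fderiv ℝ ψ x (EuclideanSpace.single i 1)) ^ 2)
      - (Yn n + δ) * (∫ x, ψ x ^ p) ^ θ < 0 := by
    have h1 : (n : ℝ) * (n - 1) * om n ^ (2 / (n : ℝ)) = Yn n := rfl
    rw [h1] at ψE
    have h2 : (Yn n + δ / 2) * (∫ x, ψ x ^ p) ^ θ < (Yn n + δ) * (∫ x, ψ x ^ p) ^ θ :=
      mul_lt_mul_of_pos_right (by linarith) hPθ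
    linarith
  have hev1 := hlim.eventually (gt_mem_nhds hneg)
  have hev2 := hB.eventually (lt_mem_nhds (mul_pos hDpos ψP))
  have hev3 : ∀ᶠ ε : ℝ in 𝓝[>] 0, ε ∈ Ioc (0 : ℝ) ε0 := Ioc_mem_nhdsGT hε0p
  obtain ⟨ε, ⟨he1, he2⟩, hε, hεε0⟩ := ((hev1.and hev2).and hev3).exists
  -- the function
  set φ : V n → ℝ := fun z => ψ (ε⁻¹ • L (z - z₀)) with hφ
  have hφd : ContDiff ℝ ∞ φ := by
    apply ψd.comp
    apply ContDiff.const_smul
    exact L.contDiff.comp (contDiff_id.sub contDiff_const)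
  have hback : ∀ z, z₀ + ε • L.symm (ε⁻¹ • L (z - z₀)) = z := by
    intro z
    rw [map_smul, L.symm_apply_apply, smul_smul, mul_inv_cancel₀ hε.ne', one_smul]
    abel
  have hφs : ∀ z, ε⁻¹ • L (z - z₀) ∈ S → z ∈ Metric.closedBall z₀ r := by
    intro z hz
    have := hball ε ⟨hε.le, hεε0⟩ _ hz
    rwa [hback] at this
  have hφt : tsupport φ ⊆ Metric.closedBall z₀ r := by
    apply closure_minimal _ Metric.isClosed_closedBall
    intro z hz
    apply hφs
    exact subset_tsupport ψ hz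
  have hφW : tsupport φ ⊆ W := hφt.trans hrW
  have hφcomp : HasCompactSupport φ := HasCompactSupport.of_support_subset_isCompact (isCompact_closedBall z₀ r)
    ((subset_tsupport φ).trans hφt)
  have hφ0 : ∀ z, z ∉ W → φ z = 0 := fun z hz => image_eq_zero_of_notMem_tsupport fun h => hz (hφW h)
  have hdφ : ∀ z v, fderiv ℝ φ z v = ε⁻¹ * fderiv ℝ ψ (ε⁻¹ • L (z - z₀)) (L v) := by
    intro z v
    have h1 : HasFDerivAt ψ (fderiv ℝ ψ (ε⁻¹ • L (z - z₀))) (ε⁻¹ • L (z - z₀)) :=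
      (ψd.differentiable (by simp) _).hasFDerivAt
    have h2 : HasFDerivAt (fun z => ε⁻¹ • L (z - z₀)) (ε⁻¹ • (L : V n →L[ℝ] V n)) z := by
      have h3 : HasFDerivAt (fun z : V n => z - z₀) (ContinuousLinearMap.id ℝ (V n)) z := (hasFDerivAt_id z).sub_const z₀
      have h4 : HasFDerivAt (fun z : V n => L (z - z₀)) (L : V n →L[ℝ] V n) z := by
        have h5 : HasFDerivAt (fun z : V n => L (z - z₀)) ((L : V n →L[ℝ] V n).comp (ContinuousLinearMap.id ℝ (V n))) z :=
          (L : V n →L[ℝ] V n).hasFDerivAt.comp z h3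
        rwa [ContinuousLinearMap.comp_id] at h5
      exact h4.const_smul ε⁻¹
    have h5 := h1.comp z h2
    have h6 : fderiv ℝ φ z = _ := h5.fderiv
    rw [h6]
    simp
  have hgip : ∀ z, gip univ k φ φ z = (ε⁻¹) ^ 2 * Q (ε⁻¹ • L (z - z₀)) z := by
    intro z
    simp only [gip, pd, fderivWithin_univ, hdφ, hQ, Finset.mul_sum]
    refine Finset.sum_congr rfl fun i _ => Finset.sum_congr rfl fun j _ => ?_
    ring
  -- the two integrals
  have hI1 : ∫ z in W, φ z ^ p * √(k z).det = ε ^ n * D⁻¹ * ∫ x, ψ x ^ p * √(k (z₀ + ε • L.symm x)).det := by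
    rw [setIntegral_eq_integral_of_forall_compl_eq_zero (fun z hz => by
      rw [hφ0 z hz, Real.zero_rpow hp0.ne', zero_mul])]
    exact scale_integral L z₀ ε hε (fun x z => ψ x ^ p * √(k z).det)
  have hI2 : ∫ z in W, (c' * gip univ k φ φ z + R z * φ z ^ 2) * √(k z).det
      = ε ^ (n - 2) * D⁻¹ * ∫ x, (c' * Q x (z₀ + ε • L.symm x) + ε ^ 2 * (R (z₀ + ε • L.symm x) * ψ x ^ 2)) *
        √(k (z₀ + ε • L.symm x)).det := by
    rw [setIntegral_eq_integral_of_forall_compl_eq_zero (fun z hz => by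
      have h1 : ∀ v, fderiv ℝ φ z v = 0 := by
        intro v
        have : fderiv ℝ φ z = 0 := by
          by_contra hne
          exact hz (hφW (support_fderiv_subset ℝ (by simpa [Function.mem_support] using hne)))
        rw [this]
        rfl
      have h2 : gip univ k φ φ z = 0 := by
        simp only [gip, pd, fderivWithin_univ, h1]
        simp
      rw [h2, hφ0 z hz]
      simp)]
    have h3 : ∀ z, (c' * gip univ k φ φ z + R z * φ z ^ 2) * √(k z).det
        = (fun x z => (ε⁻¹) ^ 2 * ((c' * Q x z + ε ^ 2 * (R z * ψ x ^ 2)) * √(k z).det)) (ε⁻¹ • L (z - z₀)) z := by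
      intro z
      simp only [hgip]
      have h5 : φ z = ψ (ε⁻¹ • L (z - z₀)) := rfl
      rw [h5]
      have h6 : ε⁻¹ ^ 2 * ε ^ 2 = 1 := by
        field_simp
      linear_combination (-(R z * ψ (ε⁻¹ • L (z - z₀)) ^ 2 * √(k z).det)) * h6
    simp_rw [h3]
    rw [scale_integral L z₀ ε hε (fun x z => (ε⁻¹) ^ 2 * ((c' * Q x z + ε ^ 2 * (R z * ψ x ^ 2)) * √(k z).det))]
    rw [integral_const_mul, ← hD]
    have h4 : ε ^ n = ε ^ (n - 2) * ε ^ 2 := by
      rw [← pow_add]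
      congr 1
      omega
    rw [h4]
    field_simp
  have hεn : 0 < ε ^ n := pow_pos hε n
  have hB0 : 0 < ∫ x, ψ x ^ p * √(k (z₀ + ε • L.symm x)).det := he2
  refine ⟨φ, hφd, hφcomp, hφW, fun z => ψ0 _, ?_, ?_⟩
  · rw [hI1]
    positivity
  · rw [hI1, hI2]
    have h1 : (ε ^ n * D⁻¹ * ∫ x, ψ x ^ p * √(k (z₀ + ε • L.symm x)).det) ^ θ
        = ε ^ (n - 2) * (D⁻¹ * ∫ x, ψ x ^ p * √(k (z₀ + ε • L.symm x)).det) ^ θ := by
      rw [mul_assoc, Real.mul_rpow hεn.le (by positivity)]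
      congr 1
      rw [← Real.rpow_natCast, ← Real.rpow_mul hε.le, hθ]
      have : (n : ℝ) * (((n : ℝ) - 2) / (n : ℝ)) = ((n - 2 : ℕ) : ℝ) := by
        rw [Nat.cast_sub (by omega)]
        push_cast
        field_simp
      rw [this, Real.rpow_natCast]
    rw [h1]
    have h2 : (0 : ℝ) < ε ^ (n - 2) := pow_pos hε _
    have h3 := mul_le_mul_of_nonneg_left he1.le h2.le
    rw [mul_zero, mul_sub, sub_nonpos] at h3
    calc _ = ε ^ (n - 2) * (D⁻¹ * ∫ x, (c' * Q x (z₀ + ε • L.symm x) + ε ^ 2 * (R (z₀ + ε • L.symm x) * ψ x ^ 2)) *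
        √(k (z₀ + ε • L.symm x)).det) := by ring
      _ ≤ _ := h3
      _ = _ := by ring

end Pool.Agent.CY.S7
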