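import Pool.Agent.CY.S7.Test
import Pool.Agent.CY.S7.Scale

/-!
Project CY, part S7: Aubin's bound (assembly by helper69).
-/

set_option autoImplicit false
set_option linter.unusedSectionVars false

open scoped Manifold ContDiff ENNReal
open MeasureTheory Set Filter Topology

namespace Pool.Agent.CY

variable {n : ℕ} {X : Type} [TopologicalSpace X] [ChartedSpace (EuclideanHalfSpace (n + 1)) X]
  [IsManifold (𝓡∂ (n + 1)) ∞ X] [CompactSpace X] [T2Space X] [ConnectedSpace X]
  [MeasurableSpace X] [BorelSpace X]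

theorem aubin (hn : 3 ≤ n) (g : Metric n X) (h : ((𝓡∂ (n + 1)).boundary X).Nonempty) (hY : 0 < YB g) :
    YB g ≤ Yn n := by
  obtain ⟨p, hp⟩ := h
  set e := chartAt (EuclideanHalfSpace (n + 1)) p with he'
  have he : e ∈ atlas (EuclideanHalfSpace (n + 1)) X := chart_mem_atlas _ p
  have hps : p ∈ e.source := mem_chart_source _ p
  have h0 : co e p 0 = 0 := (mem_boundary_iff he hps).1 hp
  have hz : tl (co e p) ∈ bdom e := by
    show bd (tl (co e p)) ∈ dom e
    rw [bd_tl h0]
    exact co_mem_dom e hps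
  have hM := S7.metOn_tang g he
  have hD : Dom univ (bdom e) := dom_of_open (isOpen_bdom e)
  apply le_of_forall_pos_le_add
  intro δ hδ
  obtain ⟨φ, h1, h2, h3, h4, h5, h6⟩ := S7.scale_test n hn (bdom e) (isOpen_bdom e) (tl (co e p)) hz
    (tang (g.G e)) (fun i j => (hM.smooth i j).continuousOn) hM.pos
    (scal univ (tang (g.G e))) (S6.continuousOn_scal hD (hM.of_le (by norm_num))) δ hδ
  have h7 := S7.test_bound hn g hY he h1 h2 h3 h4 h5
  have h8 : 0 < (∫ z in bdom e, φ z ^ (2 * (n : ℝ) / ((n : ℝ) - 2)) * rhoB g e z) ^ (((n : ℝ) - 2) / (n : ℝ)) :=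
    Real.rpow_pos_of_pos h5 _
  have h9 := h7.trans h6
  exact le_of_mul_le_mul_right h9 h8

end Pool.Agent.CY
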