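import Pool.Agent.CY.S6.Iface

/-!
Project CY, part S7: Green's formula in an open subset of `ℝ^n`.

PLAN.  Put `ψ = √det k`, `F_i z = (φ z + c) * (ψ z * ∑_j k⁻¹_ij ∂_j φ)`.  On `W` (domain `dom_of_open hW`) the
product rule and `S6.lap_div` give `∑_i ∂_i F_i = (φ + c) * (ψ * lap k φ) + ψ * gip k φ φ` (`pd univ i (φ + c) =
pd univ i φ`, and `lap` does not see the constant).  `F_i` is `C¹` on `W` and vanishes outside `tsupport φ ⊆ W`
(`∂_j φ = 0` there), so its extension by zero (`W.indicator F_i`) is `C¹` with compact support on `V n` and the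
integral of `∂_i` of it vanishes (`integral_mul_fderiv_eq_neg_fderiv_mul_of_integrable` with the constant 1 replaced
by a bump function equal to 1 near the support, or any Mathlib lemma on integrals of derivatives of compactly
supported functions).
-/

set_option autoImplicit false

open scoped Manifold ContDiff
open MeasureTheory Set Filter Topology

namespace Pool.Agent.CY.S7

/-- The integral of a partial derivative of a compactly supported `C¹` function vanishes. -/
theorem int_pd_zero {n : ℕ} (f : V n → ℝ) (hf : ContDiff ℝ 1 f) (hc : HasCompactSupport f) (i : Fin n) :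
    ∫ z, pd univ i f z = 0 := by
  have h1 : ∀ z, pd univ i f z = fderiv ℝ f z (EuclideanSpace.single i 1) := by
    intro z
    rw [pd, fderivWithin_univ]
  simp only [h1]
  have hcont : Continuous fun z => fderiv ℝ f z (EuclideanSpace.single i (1 : ℝ)) :=
    (hf.continuous_fderiv (by simp)).clm_apply continuous_const
  have hcs : HasCompactSupport fun z => fderiv ℝ f z (EuclideanSpace.single i (1 : ℝ)) :=
    hc.fderiv_apply (𝕜 := ℝ) _
  have h := integral_mul_fderiv_eq_neg_fderiv_mul_of_integrable (μ := (volume : Measure (V n)))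
    (f := fun _ => (1 : ℝ)) (g := f) (v := EuclideanSpace.single i (1 : ℝ))
    (by simp) (by simpa using hcont.integrable_of_hasCompactSupport hcs)
    (by simpa using hf.continuous.integrable_of_hasCompactSupport hc)
    (fun x _ => differentiableAt_const _)
    (fun x _ => hf.differentiable (by simp) x)
  simpa using h

private theorem pd_zero_of_near {n : ℕ} {f : V n → ℝ} {z : V n} (h : f =ᶠ[𝓝 z] fun _ => 0) (i : Fin n) :
    pd univ i f z = 0 := by
  rw [pd, fderivWithin_univ, h.fderiv_eq]
  simp

theorem green_chart {n : ℕ} {W : Set (V n)} (hW : IsOpen W) {k : MF n} (hk : MetOn W k 2)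
    {φ : V n → ℝ} (hφ : ContDiff ℝ ∞ φ) (hc : HasCompactSupport φ) (hs : tsupport φ ⊆ W) (c : ℝ) :
    ∫ z in W, (φ z + c) * lap univ k (fun x => φ x + c) z * Real.sqrt (k z).det =
      -∫ z in W, gip univ k φ φ z * Real.sqrt (k z).det := by
  have hD : Dom (univ : Set (V n)) W := dom_of_open hW
  have hφ2 : ContDiffOn ℝ 2 φ W := (hφ.of_le (by norm_cast)).contDiffOn
  have hpdc : ∀ j, pd univ j (fun x => φ x + c) = pd univ j φ := by
    intro j
    funext z
    rw [pd, pd, fderivWithin_univ, fderivWithin_univ, fderiv_add_const]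
  have hlap : lap univ k (fun x => φ x + c) = lap univ k φ := by
    funext z
    simp only [lap, hess, hpdc]
  rw [hlap]
  set K := tsupport φ with hK
  have hKc : IsCompact K := hc
  have hzero : ∀ z, z ∉ K → φ =ᶠ[𝓝 z] fun _ => 0 := fun z hz => notMem_tsupport_iff_eventuallyEq.1 hz
  -- near points outside of the support all partial derivatives vanish
  have hpd0 : ∀ z, z ∉ K → ∀ j, pd univ j φ =ᶠ[𝓝 z] fun _ => 0 := by
    intro z hz j
    have h1 : ∀ᶠ w in 𝓝 z, w ∉ K := (isClosed_tsupport φ).isOpen_compl.mem_nhds hz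
    filter_upwards [h1] with w hw
    exact pd_zero_of_near (hzero w hw) j
  -- the vector field ψ ∇φ
  set H : Fin n → V n → ℝ := fun i z => Real.sqrt (k z).det * ∑ j, (k z)⁻¹ i j * pd univ j φ z with hH
  have hH1 : ∀ i, ContDiffOn ℝ 1 (H i) W := by
    intro i
    refine (((hk.of_le (by norm_num)).contDiffOn_sdet : ContDiffOn ℝ 1 (sdet k) W)).mul
      (ContDiffOn.sum fun j _ => ?_)
    exact ((hk.of_le (by norm_num)).contDiffOn_inv i j).mul
      (hD.contDiffOn_pd j (k := 1) (l := 2) (by norm_num [one_add_one_eq_two]) hφ2)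
  have hH0 : ∀ z, z ∉ K → ∀ i, H i =ᶠ[𝓝 z] fun _ => 0 := by
    intro z hz i
    have h1 : ∀ᶠ w in 𝓝 z, ∀ j, pd univ j φ w = 0 := by
      rw [eventually_all]
      intro j
      exact hpd0 z hz j
    filter_upwards [h1] with w hw
    simp [hH, hw]
  set F : Fin n → V n → ℝ := fun i z => (φ z + c) * H i z with hF
  have hF0 : ∀ z, z ∉ K → ∀ i, F i =ᶠ[𝓝 z] fun _ => 0 := by
    intro z hz i
    filter_upwards [hH0 z hz i] with w hw
    simp [hF, hw]
  have hF1 : ∀ i, ContDiffOn ℝ 1 (F i) W := fun i =>
    ((hφ.of_le (by norm_cast)).contDiffOn.add contDiffOn_const).mul (hH1 i)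
  -- F is globally C¹
  have hF2 : ∀ i, ContDiff ℝ 1 (F i) := by
    intro i
    rw [contDiff_iff_contDiffAt]
    intro z
    by_cases hz : z ∈ W
    · exact (hF1 i).contDiffAt (hW.mem_nhds hz)
    · exact contDiffAt_const.congr_of_eventuallyEq (hF0 z (fun h => hz (hs h)) i)
  have hF3 : ∀ i, HasCompactSupport (F i) := fun i =>
    HasCompactSupport.intro hKc fun z hz => (hF0 z hz i).self_of_nhds
  have hint : ∑ i, ∫ z, pd univ i (F i) z = 0 :=
    Finset.sum_eq_zero fun i _ => int_pd_zero (F i) (hF2 i) (hF3 i) i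
  have hcF : ∀ i, Continuous (pd univ i (F i)) := by
    intro i
    have h1 : pd univ i (F i) = fun z => fderiv ℝ (F i) z (EuclideanSpace.single i 1) := by
      funext z
      rw [pd, fderivWithin_univ]
    rw [h1]
    exact ((hF2 i).continuous_fderiv (by simp)).clm_apply continuous_const
  have hiF : ∀ i, Integrable (pd univ i (F i)) := by
    intro i
    refine (hcF i).integrable_of_hasCompactSupport (HasCompactSupport.intro hKc fun z hz => ?_)
    exact pd_zero_of_near (hF0 z hz i) i
  rw [← integral_finsetSum _ (fun i _ => hiF i)] at hint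
  -- the two parts
  have hcH : ∀ i, ContinuousOn (pd univ i (H i)) W := fun i => hD.continuousOn_pd i (hH1 i)
  set a : V n → ℝ := fun z => (φ z + c) * lap univ k φ z * Real.sqrt (k z).det with ha
  set b : V n → ℝ := fun z => gip univ k φ φ z * Real.sqrt (k z).det with hb
  have ha1 : ∀ z ∈ W, a z = (φ z + c) * ∑ i, pd univ i (H i) z := by
    intro z hz
    have h1 := S6.lap_div hD hk hφ2 hz
    simp only [ha]
    rw [mul_assoc, mul_comm (lap univ k φ z), h1]
  have hb1 : ∀ z, b z = ∑ i, pd univ i φ z * H i z := by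
    intro z
    simp only [hb, hH, gip, Finset.sum_mul, Finset.mul_sum]
    exact Finset.sum_congr rfl fun i _ => Finset.sum_congr rfl fun j _ => by ring
  have hac : ContinuousOn a W := by
    refine ContinuousOn.congr ?_ ha1
    exact (hφ.continuous.continuousOn.add continuousOn_const).mul
      (continuousOn_finsetSum _ fun i _ => hcH i)
  have hbc : ContinuousOn b W := by
    refine ContinuousOn.congr ?_ (fun z _ => hb1 z)
    exact continuousOn_finsetSum _ fun i _ =>
      (hD.continuousOn_pd i (hφ2.of_le (by norm_num))).mul (hH1 i).continuousOn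
  have hsum : ∀ z ∈ W, ∑ i, pd univ i (F i) z = a z + b z := by
    intro z hz
    rw [ha1 z hz, hb1 z, Finset.mul_sum, ← Finset.sum_add_distrib]
    refine Finset.sum_congr rfl fun i _ => ?_
    have h1 : DifferentiableOn ℝ (fun x => φ x + c) W :=
      ((hφ.differentiable (by simp)).add_const c).differentiableOn
    rw [hD.pd_mul i h1 ((hH1 i).differentiableOn (by simp)) hz, hpdc]
    ring
  have ha0 : ∀ z ∈ W \ K, a z = 0 := by
    intro z hz
    rw [ha1 z hz.1]
    have : ∀ i, pd univ i (H i) z = 0 := fun i => pd_zero_of_near (hH0 z hz.2 i) i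
    simp [this]
  have hb0 : ∀ z ∈ W \ K, b z = 0 := by
    intro z hz
    rw [hb1 z]
    have : ∀ i, pd univ i φ z = 0 := fun i => (hpd0 z hz.2 i).self_of_nhds
    simp [this]
  have hai : IntegrableOn a W :=
    ((hac.mono hs).integrableOn_compact hKc).of_forall_sdiff_eq_zero hW.measurableSet ha0
  have hbi : IntegrableOn b W :=
    ((hbc.mono hs).integrableOn_compact hKc).of_forall_sdiff_eq_zero hW.measurableSet hb0
  have hfin : ∫ z in W, ∑ i, pd univ i (F i) z = ∫ z, ∑ i, pd univ i (F i) z := by
    refine setIntegral_eq_integral_of_forall_compl_eq_zero fun z hz => ?_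
    exact Finset.sum_eq_zero fun i _ => pd_zero_of_near (hF0 z (fun h => hz (hs h)) i) i
  rw [hint, setIntegral_congr_fun hW.measurableSet hsum, integral_add hai hbi] at hfin
  linarith

end Pool.Agent.CY.S7
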