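import Pool.Agent.CY.S7.Green
import Pool.Agent.CY.S7.Ext
import Pool.Agent.CY.S7.BConf
import Pool.Agent.CY.S3.Fin
import Pool.Agent.CY.S3.IntChart
import Pool.Agent.CY.S3.ConfVol

/-!
Project CY, part S7: test functions for the Yamabe constant of the boundary.

Let `Φ` be a smooth nonnegative function on `X` with `tsupport Φ ⊆ e.source`, `φ z = Φ (pt e (bd z))`, `c > 0`,
`u = Φ + c`, `h = u^{4/(n-2)} g`.

PLAN.  `int_bscal`: `int_bvol_conf` with the conformal factor `u^(2/(n-2))` (its `n`-th power is `u^(2n/(n-2))`) gives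
`∫ bscalX h ∂(bvol h) = ∫ bscalX h p * u^(2n/(n-2)) ∂(bvol g)`.  The function
`F p = bscalX h p * u^(2n/(n-2)) - bscalX g p * u²` vanishes at the boundary points outside `tsupport Φ`
(`bscal_away`); modify it to be `0` off the boundary (null set: `ae_bvol_boundary`); then its support is in `e.source`,
and at `p = pt e (bd z)` it is `-c' * u * lap univ (tang (g.G e)) (φ + c) z` (`scal_bconf` and `S6.bscalX_eq` for `g` and
`h`, `c' = 4(n-1)/(n-2)`).  `int_bvol_chart` (or `int_bvol_source`) and `green_chart` (`k = tang (g.G e)`, `W = bdom e`, the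
function `φ` cut off: `bdom e`-indicator is not needed if `φ` is given on all of `V n` with `tsupport φ ⊆ bdom e`).
Integrability: `bscalX g * u²` is bounded and a.e. measurable for the finite measure `bvol g` (`bscal_bdd`,
`ContinuousOn.aestronglyMeasurable` on the closed set boundary, `ae_bvol_boundary`); `F` likewise through the chart
(bounded continuous on the compact `tsupport φ`).
`test_bound`: for every `c > 0` the number `y_c = (c'∫ gip + ∫ R (Φ+c)²) / (∫ (Φ+c)^(2n/(n-2)))^((n-2)/n)` belongs to the set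
defining `YB g` (`S6.exists_conf`, `posSmooth_rpow`), which is bounded below because `0 < YB g`
(`Real.sInf_of_not_bddBelow`), so `YB g ≤ y_c`; let `c → 0+` (dominated convergence, or uniform convergence on the
compact space).
-/

set_option autoImplicit false
set_option linter.unusedSectionVars false

open scoped Manifold ContDiff ENNReal
open MeasureTheory Set Filter Topology

namespace Pool.Agent.CY.S7

variable {n : ℕ} {X : Type} [TopologicalSpace X] [ChartedSpace (EuclideanHalfSpace (n + 1)) X]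
  [IsManifold (𝓡∂ (n + 1)) ∞ X] [CompactSpace X] [T2Space X] [MeasurableSpace X] [BorelSpace X]

private theorem intb (g : Metric n X) {G : X → ℝ}
    (hG : ContinuousOn G ((𝓡∂ (n + 1)).boundary X)) : Integrable G (bvol g) := by
  have hB : IsClosed ((𝓡∂ (n + 1)).boundary X) := isClosed_boundary
  have h1 : IntegrableOn G ((𝓡∂ (n + 1)).boundary X) (bvol g) :=
    hG.integrableOn_compact hB.isCompact
  rwa [IntegrableOn, Measure.restrict_eq_self_of_ae_mem (ae_bvol_boundary g)] at h1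

theorem integrable_bscal (g : Metric n X) {f : X → ℝ} (hf : Continuous f) :
    Integrable (fun p => bscalX g p * f p) (bvol g) :=
  intb g ((bscal_bdd g).1.mul hf.continuousOn)

private theorem n2_pos (hn : 3 ≤ n) : (0 : ℝ) < (n : ℝ) - 2 := by
  have h : (3 : ℝ) ≤ (n : ℝ) := by exact_mod_cast hn
  linarith

private theorem pow_eq (hn : 3 ≤ n) {x : ℝ} (hx : 0 < x) :
    (x ^ (2 / ((n : ℝ) - 2))) ^ n = x ^ (2 * (n : ℝ) / ((n : ℝ) - 2)) := by
  have h0 := n2_pos hn
  rw [← Real.rpow_natCast, ← Real.rpow_mul hx.le]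
  congr 1
  field_simp

theorem int_bscal (hn : 3 ≤ n) {g h : Metric n X}
    {e : OpenPartialHomeomorph X (EuclideanHalfSpace (n + 1))}
    (he : e ∈ atlas (EuclideanHalfSpace (n + 1)) X) {φ : V n → ℝ} (hφ : ContDiff ℝ ∞ φ)
    (hc : HasCompactSupport φ) (hs : tsupport φ ⊆ bdom e) (h0 : ∀ z, 0 ≤ φ z)
    {Φ : X → ℝ} (hΦ : ContMDiff (𝓡∂ (n + 1)) 𝓘(ℝ) ∞ Φ) (hΦ0 : ∀ p, 0 ≤ Φ p)
    (hΦφ : ∀ z ∈ bdom e, Φ (pt e (bd z)) = φ z) (hΦs : tsupport Φ ⊆ e.source) {c : ℝ} (hc0 : 0 < c)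
    (hh : IsConf (fun p => (Φ p + c) ^ (2 / ((n : ℝ) - 2))) g h) :
    ∫ p, bscalX h p ∂(bvol h) =
      4 * ((n : ℝ) - 1) / ((n : ℝ) - 2) *
        (∫ z in bdom e, gip univ (tang (g.G e)) φ φ z * rhoB g e z)
      + ∫ p, bscalX g p * (Φ p + c) ^ 2 ∂(bvol g) := by
  have hn0 := n2_pos hn
  have hu0 : ∀ p, 0 < Φ p + c := fun p => by linarith [hΦ0 p]
  have huc : Continuous fun p => Φ p + c := hΦ.continuous.add continuous_const
  have huP : (fun p => Φ p + c) ∈ PosSmooth n X := ⟨hΦ.add contMDiff_const, hu0⟩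
  have hv0 : ∀ p, 0 < (Φ p + c) ^ (2 / ((n : ℝ) - 2)) := fun p => Real.rpow_pos_of_pos (hu0 p) _
  have hvc : Continuous fun p => (Φ p + c) ^ (2 / ((n : ℝ) - 2)) :=
    huc.rpow_const fun p => Or.inl (hu0 p).ne'
  have hwc : Continuous fun p => (Φ p + c) ^ (2 * (n : ℝ) / ((n : ℝ) - 2)) :=
    huc.rpow_const fun p => Or.inl (hu0 p).ne'
  rw [int_bvol_conf hvc hv0 hh]
  have e1 : ∫ p, bscalX h p * ((Φ p + c) ^ (2 / ((n : ℝ) - 2))) ^ n ∂(bvol g) =
      ∫ p, bscalX h p * (Φ p + c) ^ (2 * (n : ℝ) / ((n : ℝ) - 2)) ∂(bvol g) := by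
    refine integral_congr_ae (Eventually.of_forall fun p => ?_)
    simp only [pow_eq hn (hu0 p)]
  rw [e1]
  have hi1 : Integrable (fun p => bscalX h p * (Φ p + c) ^ (2 * (n : ℝ) / ((n : ℝ) - 2))) (bvol g) :=
    intb g ((bscal_bdd h).1.mul hwc.continuousOn)
  have hi2 : Integrable (fun p => bscalX g p * (Φ p + c) ^ 2) (bvol g) :=
    integrable_bscal g (huc.pow 2)
  set F : X → ℝ := fun p => bscalX h p * (Φ p + c) ^ (2 * (n : ℝ) / ((n : ℝ) - 2)) -
    bscalX g p * (Φ p + c) ^ 2 with hFdef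
  have hFint : ∫ p, F p ∂(bvol g) =
      ∫ p, bscalX h p * (Φ p + c) ^ (2 * (n : ℝ) / ((n : ℝ) - 2)) ∂(bvol g) -
        ∫ p, bscalX g p * (Φ p + c) ^ 2 ∂(bvol g) := integral_sub hi1 hi2
  have hF0 : ∀ᵐ p ∂(bvol g), p ∉ e.source → F p = 0 := by
    filter_upwards [ae_bvol_boundary g] with p hpb hps
    have h1 : p ∉ tsupport Φ := fun h => hps (hΦs h)
    have h2 : ∀ᶠ q in 𝓝 p, (fun p => Φ p + c) q = c := by
      have h3 : (tsupport Φ)ᶜ ∈ 𝓝 p := (isClosed_tsupport Φ).isOpen_compl.mem_nhds h1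
      filter_upwards [h3] with q hq
      have h4 : Φ q = 0 := image_eq_zero_of_notMem_tsupport hq
      simp [h4]
    have h3 := bscal_away hn huP hh hpb hc0 h2
    simp only [hFdef]
    rw [h3, sub_self]
  have h5 : ∫ p, F p ∂(bvol g) = ∫ p in e.source, F p ∂(bvol g) :=
    (setIntegral_eq_integral_of_ae_compl_eq_zero hF0).symm
  rw [int_bvol_source g he] at h5
  have hM := metOn_tang g he
  have hD : Dom univ (bdom e) := dom_of_open (isOpen_bdom e)
  have h6 : ∀ z ∈ bdom e, F (pt e (bd z)) * rhoB g e z =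
      -(4 * ((n : ℝ) - 1) / ((n : ℝ) - 2)) * ((φ z + c) * lap univ (tang (g.G e)) (fun x => φ x + c) z *
        Real.sqrt (tang (g.G e) z).det) := by
    intro z hz
    have hps := pt_mem_source e hz
    have hpb := pt_bd_mem_boundary he hz
    have h7 : bscalX h (pt e (bd z)) = scal univ (tang (h.G e)) z := by
      rw [S6.bscalX_eq h he hps hpb, co_pt e hz, tl_bd]
    have h8 : bscalX g (pt e (bd z)) = scal univ (tang (g.G e)) z := by
      rw [S6.bscalX_eq g he hps hpb, co_pt e hz, tl_bd]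
    have h9 := scal_bconf hn huP hh he hz
    have h10 : lap univ (tang (g.G e)) (fun x => Φ (pt e (bd x)) + c) z =
        lap univ (tang (g.G e)) (fun x => φ x + c) z :=
      lap_congr hD (fun x hx => by rw [hΦφ x hx]) hz
    rw [h10, hΦφ z hz] at h9
    have hU : 0 < φ z + c := by linarith [h0 z]
    have h11 : (φ z + c) ^ (-((n : ℝ) + 2) / ((n : ℝ) - 2)) * (φ z + c) ^ (2 * (n : ℝ) / ((n : ℝ) - 2)) =
        φ z + c := by
      rw [← Real.rpow_add hU]
      have h12 : -((n : ℝ) + 2) / ((n : ℝ) - 2) + 2 * (n : ℝ) / ((n : ℝ) - 2) = 1 := by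
        field_simp
        ring
      rw [h12, Real.rpow_one]
    simp only [hFdef]
    rw [h7, h8, h9, hΦφ z hz]
    have h13 : rhoB g e z = Real.sqrt (tang (g.G e) z).det := rfl
    rw [h13]
    generalize Real.sqrt (tang (g.G e) z).det = r
    generalize lap univ (tang (g.G e)) (fun x => φ x + c) z = L
    generalize scal univ (tang (g.G e)) z = R
    generalize 4 * ((n : ℝ) - 1) / ((n : ℝ) - 2) = c' at *
    have h14 : (φ z + c) ^ (-((n : ℝ) + 2) / ((n : ℝ) - 2)) * (-c' * L + R * (φ z + c)) *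
        (φ z + c) ^ (2 * (n : ℝ) / ((n : ℝ) - 2)) = (φ z + c) * (-c' * L + R * (φ z + c)) := by
      calc (φ z + c) ^ (-((n : ℝ) + 2) / ((n : ℝ) - 2)) * (-c' * L + R * (φ z + c)) *
            (φ z + c) ^ (2 * (n : ℝ) / ((n : ℝ) - 2))
          = ((φ z + c) ^ (-((n : ℝ) + 2) / ((n : ℝ) - 2)) * (φ z + c) ^ (2 * (n : ℝ) / ((n : ℝ) - 2))) *
            (-c' * L + R * (φ z + c)) := by ring
        _ = _ := by rw [h11]
    rw [h14]
    ring
  have h15 : ∫ z in bdom e, F (pt e (bd z)) * rhoB g e z =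
      4 * ((n : ℝ) - 1) / ((n : ℝ) - 2) * ∫ z in bdom e, gip univ (tang (g.G e)) φ φ z * rhoB g e z := by
    rw [setIntegral_congr_fun (isOpen_bdom e).measurableSet h6, integral_const_mul,
      green_chart (isOpen_bdom e) (hM.of_le (by norm_num)) hφ hc hs c]
    have h16 : ∀ z, rhoB g e z = Real.sqrt (tang (g.G e) z).det := fun z => rfl
    simp only [h16]
    ring
  rw [h5, h15] at hFint
  linarith

theorem bvol_test (hn : 3 ≤ n) {g h : Metric n X} {Φ : X → ℝ}
    (hΦ : ContMDiff (𝓡∂ (n + 1)) 𝓘(ℝ) ∞ Φ) (hΦ0 : ∀ p, 0 ≤ Φ p) {c : ℝ} (hc0 : 0 < c)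
    (hh : IsConf (fun p => (Φ p + c) ^ (2 / ((n : ℝ) - 2))) g h) :
    (bvol h univ).toReal = ∫ p, (Φ p + c) ^ (2 * (n : ℝ) / ((n : ℝ) - 2)) ∂(bvol g) := by
  have hu0 : ∀ p, 0 < Φ p + c := fun p => by linarith [hΦ0 p]
  have huc : Continuous fun p => Φ p + c := hΦ.continuous.add continuous_const
  have hv0 : ∀ p, 0 < (Φ p + c) ^ (2 / ((n : ℝ) - 2)) := fun p => Real.rpow_pos_of_pos (hu0 p) _
  have hvc : Continuous fun p => (Φ p + c) ^ (2 / ((n : ℝ) - 2)) :=
    huc.rpow_const fun p => Or.inl (hu0 p).ne'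
  have h1 : (bvol h univ).toReal = ∫ _p, (1 : ℝ) ∂(bvol h) := by
    simp [Measure.real]
  rw [h1, int_bvol_conf hvc hv0 hh]
  refine integral_congr_ae (Eventually.of_forall fun p => ?_)
  simp only [one_mul]
  exact pow_eq hn (hu0 p)

theorem test_bound (hn : 3 ≤ n) (g : Metric n X) (hY : 0 < YB g)
    {e : OpenPartialHomeomorph X (EuclideanHalfSpace (n + 1))}
    (he : e ∈ atlas (EuclideanHalfSpace (n + 1)) X) {φ : V n → ℝ} (hφ : ContDiff ℝ ∞ φ)
    (hc : HasCompactSupport φ) (hs : tsupport φ ⊆ bdom e) (h0 : ∀ z, 0 ≤ φ z)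
    (hpos : 0 < ∫ z in bdom e, φ z ^ (2 * (n : ℝ) / ((n : ℝ) - 2)) * rhoB g e z) :
    YB g * (∫ z in bdom e, φ z ^ (2 * (n : ℝ) / ((n : ℝ) - 2)) * rhoB g e z) ^ (((n : ℝ) - 2) / (n : ℝ)) ≤
      ∫ z in bdom e, (4 * ((n : ℝ) - 1) / ((n : ℝ) - 2) * gip univ (tang (g.G e)) φ φ z
        + scal univ (tang (g.G e)) z * φ z ^ 2) * rhoB g e z := by
  have hn0 := n2_pos hn
  have hn3 : (3 : ℝ) ≤ (n : ℝ) := by exact_mod_cast hn
  obtain ⟨Φ, hΦ, hΦ0, hΦφ, hΦs⟩ := exists_extension he hφ hc hs h0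
  have hΦc : Continuous Φ := hΦ.continuous
  have hM := metOn_tang g he
  have hD : Dom univ (bdom e) := dom_of_open (isOpen_bdom e)
  have hmb : MeasurableSet (bdom e) := (isOpen_bdom e).measurableSet
  have hΦout : ∀ p, p ∉ e.source → Φ p = 0 := fun p hp =>
    image_eq_zero_of_notMem_tsupport fun h => hp (hΦs h)
  -- the volume of the test function
  have hq0 : (0 : ℝ) < 2 * (n : ℝ) / ((n : ℝ) - 2) := by positivity
  have hr0 : (0 : ℝ) ≤ ((n : ℝ) - 2) / (n : ℝ) := by positivity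
  have hV : ∫ z in bdom e, φ z ^ (2 * (n : ℝ) / ((n : ℝ) - 2)) * rhoB g e z =
      ∫ p, Φ p ^ (2 * (n : ℝ) / ((n : ℝ) - 2)) ∂(bvol g) := by
    rw [← setIntegral_eq_integral_of_forall_compl_eq_zero (s := e.source) (μ := bvol g)
      (f := fun p => Φ p ^ (2 * (n : ℝ) / ((n : ℝ) - 2))) (fun p hp => by
        simp only [hΦout p hp]
        exact Real.zero_rpow hq0.ne'), int_bvol_source g he]
    refine setIntegral_congr_fun hmb fun z hz => ?_
    simp only [hΦφ z hz]
  have hR : ∫ z in bdom e, scal univ (tang (g.G e)) z * φ z ^ 2 * rhoB g e z =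
      ∫ p, bscalX g p * Φ p ^ 2 ∂(bvol g) := by
    rw [← setIntegral_eq_integral_of_forall_compl_eq_zero (s := e.source) (μ := bvol g)
      (f := fun p => bscalX g p * Φ p ^ 2) (fun p hp => by
        simp only [hΦout p hp]
        ring), int_bvol_source g he]
    refine setIntegral_congr_fun hmb fun z hz => ?_
    have h8 : bscalX g (pt e (bd z)) = scal univ (tang (g.G e)) z := by
      rw [S6.bscalX_eq g he (pt_mem_source e hz) (pt_bd_mem_boundary he hz), co_pt e hz, tl_bd]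
    simp only [hΦφ z hz, h8]
  have hRi : IntegrableOn (fun z => scal univ (tang (g.G e)) z * φ z ^ 2 * rhoB g e z) (bdom e) := by
    have h1 : IntegrableOn (fun p => bscalX g p * Φ p ^ 2) e.source (bvol g) :=
      (integrable_bscal g (hΦc.pow 2)).integrableOn
    rw [integrableOn_bvol_source g he] at h1
    refine (integrableOn_congr_fun (fun z hz => ?_) hmb).1 h1
    have h8 : bscalX g (pt e (bd z)) = scal univ (tang (g.G e)) z := by
      rw [S6.bscalX_eq g he (pt_mem_source e hz) (pt_bd_mem_boundary he hz), co_pt e hz, tl_bd]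
    simp only [hΦφ z hz, h8]
  have hGi : IntegrableOn (fun z => gip univ (tang (g.G e)) φ φ z * rhoB g e z) (bdom e) := by
    have h1 : ContinuousOn (fun z => gip univ (tang (g.G e)) φ φ z * rhoB g e z) (bdom e) := by
      refine ContinuousOn.mul ?_ (continuousOn_rhoB g he)
      refine continuousOn_finsetSum _ fun i _ => continuousOn_finsetSum _ fun j _ => ?_
      have hp : ∀ i, ContinuousOn (pd univ i φ) (bdom e) := fun i =>
        hD.continuousOn_pd i ((hφ.of_le (by norm_num)).contDiffOn)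
      exact ((hM.contDiffOn_inv i j).continuousOn).mul ((hp i).mul (hp j))
    have h2 : IntegrableOn (fun z => gip univ (tang (g.G e)) φ φ z * rhoB g e z) (tsupport φ) :=
      (h1.mono hs).integrableOn_compact hc
    refine h2.of_forall_sdiff_eq_zero hmb fun z hz => ?_
    have h3 : ∀ i, pd univ i φ z = 0 := by
      intro i
      have h4 : fderiv ℝ φ z = 0 :=
        image_eq_zero_of_notMem_tsupport fun h => hz.2 (tsupport_fderiv_subset ℝ h)
      simp [pd, fderivWithin_univ, h4]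
    simp [gip, h3]
  have hsum : ∫ z in bdom e, (4 * ((n : ℝ) - 1) / ((n : ℝ) - 2) * gip univ (tang (g.G e)) φ φ z
        + scal univ (tang (g.G e)) z * φ z ^ 2) * rhoB g e z =
      4 * ((n : ℝ) - 1) / ((n : ℝ) - 2) * (∫ z in bdom e, gip univ (tang (g.G e)) φ φ z * rhoB g e z)
        + ∫ p, bscalX g p * Φ p ^ 2 ∂(bvol g) := by
    rw [← hR, ← integral_const_mul, ← integral_add (hGi.const_mul _) hRi]
    refine integral_congr_ae (Eventually.of_forall fun z => ?_)
    simp only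
    ring
  rw [hsum, hV]
  rw [hV] at hpos
  set A : ℝ := 4 * ((n : ℝ) - 1) / ((n : ℝ) - 2) *
    ∫ z in bdom e, gip univ (tang (g.G e)) φ φ z * rhoB g e z with hA
  set Q0 : ℝ := YB g * (∫ p, Φ p ^ (2 * (n : ℝ) / ((n : ℝ) - 2)) ∂(bvol g)) ^ (((n : ℝ) - 2) / (n : ℝ)) with hQ0
  -- the inequality for every `c > 0`
  have hB0 : Integrable (bscalX g) (bvol g) := intb g (bscal_bdd g).1
  have hB1 : Integrable (fun p => bscalX g p * Φ p) (bvol g) := integrable_bscal g hΦc
  have hB2 : Integrable (fun p => bscalX g p * Φ p ^ 2) (bvol g) := integrable_bscal g (hΦc.pow 2)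
  have key : ∀ c : ℝ, 0 < c → Q0 ≤ A + (∫ p, bscalX g p * Φ p ^ 2 ∂(bvol g)
      + 2 * c * ∫ p, bscalX g p * Φ p ∂(bvol g) + c ^ 2 * ∫ p, bscalX g p ∂(bvol g)) := by
    intro c hc0
    have hu0 : ∀ p, 0 < Φ p + c := fun p => by linarith [hΦ0 p]
    have huP : (fun p => Φ p + c) ∈ PosSmooth n X := ⟨hΦ.add contMDiff_const, hu0⟩
    have hvP := posSmooth_rpow huP (2 / ((n : ℝ) - 2))
    obtain ⟨h, hh⟩ := S6.exists_conf g hvP
    have h1 := int_bscal hn he hφ hc hs h0 hΦ hΦ0 hΦφ hΦs hc0 hh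
    have h2 := bvol_test hn hΦ hΦ0 hc0 hh
    have h3 : ∫ p, bscalX g p * (Φ p + c) ^ 2 ∂(bvol g) = ∫ p, bscalX g p * Φ p ^ 2 ∂(bvol g)
        + 2 * c * ∫ p, bscalX g p * Φ p ∂(bvol g) + c ^ 2 * ∫ p, bscalX g p ∂(bvol g) := by
      have hB3 : Integrable (fun p => bscalX g p * Φ p ^ 2 + 2 * c * (bscalX g p * Φ p)) (bvol g) :=
        hB2.add (hB1.const_mul _)
      rw [← integral_const_mul, ← integral_const_mul, ← integral_add hB2 (hB1.const_mul _),
        ← integral_add hB3 (hB0.const_mul _)]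
      refine integral_congr_ae (Eventually.of_forall fun p => ?_)
      simp only
      ring
    have hbdd : BddBelow {y : ℝ | ∃ (u : X → ℝ) (h : Metric n X), u ∈ PosSmooth n X ∧ IsConf u g h ∧
        y = (∫ p, bscalX h p ∂(bvol h)) / (bvol h univ).toReal ^ (((n : ℝ) - 2) / (n : ℝ))} := by
      by_contra hnb
      have h4 : YB g = 0 := Real.sInf_of_not_bddBelow hnb
      rw [h4] at hY
      exact lt_irrefl _ hY
    have h4 : YB g ≤ (∫ p, bscalX h p ∂(bvol h)) / (bvol h univ).toReal ^ (((n : ℝ) - 2) / (n : ℝ)) :=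
      csInf_le hbdd ⟨_, h, hvP, hh, rfl⟩
    have hVc : (∫ p, Φ p ^ (2 * (n : ℝ) / ((n : ℝ) - 2)) ∂(bvol g)) ≤ (bvol h univ).toReal := by
      rw [h2]
      refine integral_mono ?_ ?_ fun p => ?_
      · exact intb g (hΦc.rpow_const fun p => Or.inr hq0.le).continuousOn
      · exact intb g ((hΦc.add continuous_const).rpow_const fun p => Or.inr hq0.le).continuousOn
      · exact Real.rpow_le_rpow (hΦ0 p) (by linarith) hq0.le
    have hVpos : 0 < (bvol h univ).toReal ^ (((n : ℝ) - 2) / (n : ℝ)) :=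
      Real.rpow_pos_of_pos (hpos.trans_le hVc) _
    rw [le_div_iff₀ hVpos, h1, h3] at h4
    refine le_trans ?_ h4
    exact mul_le_mul_of_nonneg_left (Real.rpow_le_rpow hpos.le hVc hr0) hY.le
  -- the limit `c → 0+`
  have hlim : Tendsto (fun c : ℝ => A + (∫ p, bscalX g p * Φ p ^ 2 ∂(bvol g)
      + 2 * c * ∫ p, bscalX g p * Φ p ∂(bvol g) + c ^ 2 * ∫ p, bscalX g p ∂(bvol g))) (𝓝[>] 0)
      (𝓝 (A + (∫ p, bscalX g p * Φ p ^ 2 ∂(bvol g)
      + 2 * 0 * ∫ p, bscalX g p * Φ p ∂(bvol g) + 0 ^ 2 * ∫ p, bscalX g p ∂(bvol g)))) := by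
    refine (Continuous.tendsto ?_ 0).mono_left nhdsWithin_le_nhds
    fun_prop
  have h7 := ge_of_tendsto hlim (by
    filter_upwards [self_mem_nhdsWithin] with c hc using key c hc)
  simpa using h7

end Pool.Agent.CY.S7
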